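import Mathlib

/-!
# Labelled triangles and the triangle removal lemma
-/

set_option autoImplicit false
set_option linter.unusedSectionVars false

open Finset SimpleGraph SimpleGraph.TripartiteFromTriangles Sum3

namespace Pool.Agent.Zk73.CC

variable {X : Type} [Fintype X] [DecidableEq X] {n : ℕ}

/-- the labelled triangles with middle index in `J` -/
def tri (L R O : X → X → Option (Fin n × Fin n)) (J : Finset (Fin n)) : Finset (X × X × X) :=
  univ.filter fun t => ∃ i, ∃ j ∈ J, ∃ k, L t.1 t.2.1 = some (i, j) ∧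
    R t.2.1 t.2.2 = some (j, k) ∧ O t.1 t.2.2 = some (i, k)

theorem mem_tri {L R O : X → X → Option (Fin n × Fin n)} {J : Finset (Fin n)} {x y z : X} :
    (x, y, z) ∈ tri L R O J ↔ ∃ i, ∃ j ∈ J, ∃ k, L x y = some (i, j) ∧
      R y z = some (j, k) ∧ O x z = some (i, k) := by
  unfold tri
  rw [mem_filter]
  exact ⟨fun h => h.2, fun h => ⟨mem_univ _, h⟩⟩

/-- there are no further triangles -/
theorem card_cliques {L R O : X → X → Option (Fin n × Fin n)} {J : Finset (Fin n)}
    (only : ∀ x y z i j j' k i' k', L x y = some (i, j) → R y z = some (j', k) →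
      O x z = some (i', k') → i = i' ∧ j = j' ∧ k = k') :
    ((graph (tri L R O J)).cliqueFinset 3).card ≤ (tri L R O J).card := by
  have h : (graph (tri L R O J)).cliqueFinset 3 ⊆ (tri L R O J).map toTriangle := by
    intro s hs
    rw [mem_cliqueFinset_iff, SimpleGraph.is3Clique_iff] at hs
    obtain ⟨x, y, z, hxy, hxz, hyz, rfl⟩ := hs
    obtain ⟨a, b, c, habc, hab, hac, hbc⟩ := graph_triple hxy hxz hyz
    rw [mem_map]
    refine ⟨(a, b, c), ?_, habc⟩
    obtain ⟨c', hc'⟩ := Graph.in₀₁_iff.1 hab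
    obtain ⟨b', hb'⟩ := Graph.in₀₂_iff.1 hac
    obtain ⟨a', ha'⟩ := Graph.in₁₂_iff.1 hbc
    rw [mem_tri] at ha' hb' hc' ⊢
    obtain ⟨i, j, hj, k, h1, -, -⟩ := hc'
    obtain ⟨i', j', -, k', -, -, h2⟩ := hb'
    obtain ⟨i'', j'', -, k'', -, h3, -⟩ := ha'
    obtain ⟨e1, e2, e3⟩ := only a b c _ _ _ _ _ _ h1 h3 h2
    subst e1 e2 e3
    exact ⟨i, j, hj, k'', h1, h3, h2⟩
  exact (card_le_card h).trans (card_map _).le

/-- the edges of a set in the three parts -/
theorem parts_le (s : Finset (Sym2 (X ⊕ X ⊕ X))) :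
    (univ.filter fun p : X × X => s(in₀ p.1, in₁ p.2) ∈ s).card +
      (univ.filter fun p : X × X => s(in₁ p.1, in₂ p.2) ∈ s).card +
      (univ.filter fun p : X × X => s(in₀ p.1, in₂ p.2) ∈ s).card ≤ s.card := by
  classical
  have f1 : Function.Injective (fun p : X × X => (s(in₀ p.1, in₁ p.2) : Sym2 (X ⊕ X ⊕ X))) := by
    rintro ⟨a, b⟩ ⟨c, d⟩ h
    simpa [in₀, in₁] using h
  have f2 : Function.Injective (fun p : X × X => (s(in₁ p.1, in₂ p.2) : Sym2 (X ⊕ X ⊕ X))) := by
    rintro ⟨a, b⟩ ⟨c, d⟩ h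
    simpa [in₁, in₂] using h
  have f3 : Function.Injective (fun p : X × X => (s(in₀ p.1, in₂ p.2) : Sym2 (X ⊕ X ⊕ X))) := by
    rintro ⟨a, b⟩ ⟨c, d⟩ h
    simpa [in₀, in₂] using h
  rw [← card_image_of_injective _ f1, ← card_image_of_injective _ f2,
    ← card_image_of_injective _ f3, ← card_union_of_disjoint, ← card_union_of_disjoint]
  · refine card_le_card ?_
    intro e he
    simp only [mem_union, mem_image, mem_filter, mem_univ, true_and] at he
    rcases he with (⟨p, h, rfl⟩ | ⟨p, h, rfl⟩) | ⟨p, h, rfl⟩ <;> exact h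
  · rw [disjoint_union_left]
    constructor <;> rw [Finset.disjoint_left] <;> intro e h1 h2 <;>
      simp only [mem_image, mem_filter, mem_univ, true_and] at h1 h2 <;>
      obtain ⟨p, -, rfl⟩ := h1 <;> obtain ⟨q, -, h⟩ := h2 <;> simp [in₀, in₁, in₂] at h
  · rw [Finset.disjoint_left]
    intro e h1 h2
    simp only [mem_image, mem_filter, mem_univ, true_and] at h1 h2
    obtain ⟨p, -, rfl⟩ := h1
    obtain ⟨q, -, h⟩ := h2
    simp [in₀, in₁, in₂] at h

/-- a set of edges which meets all labelled triangles is large -/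
theorem far {L R O : X → X → Option (Fin n × Fin n)} {J : Finset (Fin n)}
    (T : Finset (Fin n × Fin n × Fin n)) (hTJ : ∀ τ ∈ T, τ.2.1 ∈ J) (M : ℕ)
    (hhit : ∀ τ ∈ T, ∀ S1 S2 S3 : Finset (X × X),
      (∀ x y z, L x y = some (τ.1, τ.2.1) → R y z = some (τ.2.1, τ.2.2) →
        O x z = some (τ.1, τ.2.2) → (x, y) ∈ S1 ∨ (y, z) ∈ S2 ∨ (x, z) ∈ S3) →
      Fintype.card X ^ 2 ≤ M * ((S1.filter fun p => L p.1 p.2 = some (τ.1, τ.2.1)).card +
        (S2.filter fun p => R p.1 p.2 = some (τ.2.1, τ.2.2)).card +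
        (S3.filter fun p => O p.1 p.2 = some (τ.1, τ.2.2)).card))
    {s : Finset (Sym2 (X ⊕ X ⊕ X))}
    (hs : ((graph (tri L R O J)).deleteEdges s).CliqueFree 3) :
    T.card * Fintype.card X ^ 2 ≤ M * n * s.card := by
  classical
  set S1 := univ.filter fun p : X × X => s(in₀ p.1, in₁ p.2) ∈ s with hS1
  set S2 := univ.filter fun p : X × X => s(in₁ p.1, in₂ p.2) ∈ s with hS2
  set S3 := univ.filter fun p : X × X => s(in₀ p.1, in₂ p.2) ∈ s with hS3
  have hcov : ∀ τ ∈ T, ∀ x y z, L x y = some (τ.1, τ.2.1) → R y z = some (τ.2.1, τ.2.2) →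
        O x z = some (τ.1, τ.2.2) → (x, y) ∈ S1 ∨ (y, z) ∈ S2 ∨ (x, z) ∈ S3 := by
    intro τ hτ x y z h1 h2 h3
    by_contra hcon
    simp only [hS1, hS2, hS3, mem_filter, mem_univ, true_and, not_or] at hcon
    obtain ⟨c1, c2, c3⟩ := hcon
    have ht : (x, y, z) ∈ tri L R O J := mem_tri.mpr ⟨_, _, hTJ τ hτ, _, h1, h2, h3⟩
    refine hs {in₀ x, in₁ y, in₂ z} ?_
    rw [is3Clique_triple_iff]
    simp only [deleteEdges_adj, Graph.in₀₁_iff, Graph.in₀₂_iff, Graph.in₁₂_iff, mem_coe]
    exact ⟨⟨⟨_, ht⟩, c1⟩, ⟨⟨_, ht⟩, c3⟩, ⟨⟨_, ht⟩, c2⟩⟩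
  have h1 : T.card * Fintype.card X ^ 2 ≤ ∑ τ ∈ T,
      M * ((S1.filter fun p => L p.1 p.2 = some (τ.1, τ.2.1)).card +
        (S2.filter fun p => R p.1 p.2 = some (τ.2.1, τ.2.2)).card +
        (S3.filter fun p => O p.1 p.2 = some (τ.1, τ.2.2)).card) := by
    rw [← smul_eq_mul, ← sum_const]
    exact sum_le_sum fun τ hτ => hhit τ hτ S1 S2 S3 (hcov τ hτ)
  -- every edge is counted at most `n` times
  have key : ∀ (S : Finset (X × X)) (F : X → X → Option (Fin n × Fin n))
      (g : Fin n × Fin n × Fin n → Fin n × Fin n) (g' : Fin n × Fin n × Fin n → Fin n)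
      (_ : Function.Injective fun τ => (g τ, g' τ)),
      ∑ τ ∈ T, (S.filter fun p => F p.1 p.2 = some (g τ)).card ≤ n * S.card := by
    intro S F g g' hg
    calc ∑ τ ∈ T, (S.filter fun p => F p.1 p.2 = some (g τ)).card
        = ∑ τ ∈ T, ∑ p ∈ S, if F p.1 p.2 = some (g τ) then 1 else 0 := by
          refine sum_congr rfl fun τ _ => ?_
          rw [card_filter]
      _ = ∑ p ∈ S, ∑ τ ∈ T, if F p.1 p.2 = some (g τ) then 1 else 0 := sum_comm
      _ = ∑ p ∈ S, (T.filter fun τ => F p.1 p.2 = some (g τ)).card := by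
          refine sum_congr rfl fun p _ => ?_
          rw [card_filter]
      _ ≤ ∑ _p ∈ S, n := by
          refine sum_le_sum fun p _ => ?_
          calc (T.filter fun τ => F p.1 p.2 = some (g τ)).card
              ≤ (univ : Finset (Fin n)).card := by
                refine card_le_card_of_injOn g' (fun _ _ => mem_coe.mpr (mem_univ _)) ?_
                intro τ hτ τ' hτ' e
                have e1 := (mem_filter.1 (mem_coe.1 hτ)).2
                have e2 := (mem_filter.1 (mem_coe.1 hτ')).2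
                rw [e1] at e2
                exact hg (Prod.ext (Option.some_injective _ e2) e)
            _ = n := by simp
      _ = n * S.card := by rw [sum_const, smul_eq_mul, Nat.mul_comm]
  have k1 := key S1 L (fun τ => (τ.1, τ.2.1)) (fun τ => τ.2.2) (by
    rintro ⟨a, b, c⟩ ⟨a', b', c'⟩ h
    simpa [and_assoc] using h)
  have k2 := key S2 R (fun τ => (τ.2.1, τ.2.2)) (fun τ => τ.1) (by
    rintro ⟨a, b, c⟩ ⟨a', b', c'⟩ h
    simp only [Prod.mk.injEq] at h ⊢
    tauto)
  have k3 := key S3 O (fun τ => (τ.1, τ.2.2)) (fun τ => τ.2.1) (by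
    rintro ⟨a, b, c⟩ ⟨a', b', c'⟩ h
    simp only [Prod.mk.injEq] at h ⊢
    tauto)
  rw [← mul_sum, sum_add_distrib, sum_add_distrib] at h1
  have h2 := parts_le s
  calc T.card * Fintype.card X ^ 2 ≤ _ := h1
    _ ≤ M * (n * S1.card + n * S2.card + n * S3.card) := by gcongr
    _ = M * n * (S1.card + S2.card + S3.card) := by ring
    _ ≤ M * n * s.card := by gcongr

/-- the number of labelled triangles whose middle index is not frequent -/
theorem card_tri {L R O : X → X → Option (Fin n × Fin n)} {J : Finset (Fin n)} {D A : ℕ}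
    (hX : 0 < Fintype.card X)
    (degL : ∀ j y, Fintype.card X * (univ.filter fun x => ∃ i, L x y = some (i, j)).card ≤
      D * (univ.filter fun p : X × X => ∃ i, L p.1 p.2 = some (i, j)).card)
    (degR : ∀ j y, Fintype.card X * (univ.filter fun z => ∃ k, R y z = some (j, k)).card ≤
      D * (univ.filter fun p : X × X => ∃ k, R p.1 p.2 = some (j, k)).card)
    (hJL : ∀ j ∈ J, n * (univ.filter fun p : X × X => ∃ i, L p.1 p.2 = some (i, j)).card ≤
      A * Fintype.card X ^ 2)
    (hJR : ∀ j ∈ J, n * (univ.filter fun p : X × X => ∃ k, R p.1 p.2 = some (j, k)).card ≤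
      A * Fintype.card X ^ 2) :
    n * (tri L R O J).card ≤ (D * A) ^ 2 * Fintype.card X ^ 3 := by
  classical
  set N := Fintype.card X with hN
  have b1 : ∀ j ∈ J, ∀ y, n * (univ.filter fun x => ∃ i, L x y = some (i, j)).card ≤
      D * A * N := by
    intro j hj y
    refine Nat.le_of_mul_le_mul_left ?_ hX
    calc N * (n * (univ.filter fun x => ∃ i, L x y = some (i, j)).card)
        = n * (N * (univ.filter fun x => ∃ i, L x y = some (i, j)).card) := by ring
      _ ≤ n * (D * (univ.filter fun p : X × X => ∃ i, L p.1 p.2 = some (i, j)).card) :=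
          Nat.mul_le_mul_left _ (degL j y)
      _ = D * (n * (univ.filter fun p : X × X => ∃ i, L p.1 p.2 = some (i, j)).card) := by ring
      _ ≤ D * (A * N ^ 2) := Nat.mul_le_mul_left _ (hJL j hj)
      _ = N * (D * A * N) := by ring
  have b2 : ∀ j ∈ J, ∀ y, n * (univ.filter fun z => ∃ k, R y z = some (j, k)).card ≤
      D * A * N := by
    intro j hj y
    refine Nat.le_of_mul_le_mul_left ?_ hX
    calc N * (n * (univ.filter fun z => ∃ k, R y z = some (j, k)).card)
        = n * (N * (univ.filter fun z => ∃ k, R y z = some (j, k)).card) := by ring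
      _ ≤ n * (D * (univ.filter fun p : X × X => ∃ k, R p.1 p.2 = some (j, k)).card) :=
          Nat.mul_le_mul_left _ (degR j y)
      _ = D * (n * (univ.filter fun p : X × X => ∃ k, R p.1 p.2 = some (j, k)).card) := by ring
      _ ≤ D * (A * N ^ 2) := Nat.mul_le_mul_left _ (hJR j hj)
      _ = N * (D * A * N) := by ring
  have h1 : (tri L R O J).card ≤ ∑ j ∈ J, ∑ y : X,
      (univ.filter fun x => ∃ i, L x y = some (i, j)).card *
        (univ.filter fun z => ∃ k, R y z = some (j, k)).card := by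
    have h2 : tri L R O J ⊆ J.biUnion fun j => univ.biUnion fun y : X =>
        ((univ.filter fun x => ∃ i, L x y = some (i, j)) ×ˢ
          (univ.filter fun z => ∃ k, R y z = some (j, k))).image fun p => (p.1, y, p.2) := by
      rintro ⟨x, y, z⟩ h
      obtain ⟨i, j, hj, k, h1, h2, -⟩ := mem_tri.mp h
      rw [mem_biUnion]
      refine ⟨j, hj, ?_⟩
      rw [mem_biUnion]
      refine ⟨y, mem_univ _, ?_⟩
      rw [mem_image]
      refine ⟨(x, z), ?_, rfl⟩
      rw [mem_product, mem_filter, mem_filter]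
      exact ⟨⟨mem_univ _, i, h1⟩, ⟨mem_univ _, k, h2⟩⟩
    refine (card_le_card h2).trans (card_biUnion_le.trans (sum_le_sum fun j _ => ?_))
    refine card_biUnion_le.trans (sum_le_sum fun y _ => ?_)
    exact card_image_le.trans (card_product _ _).le
  rcases Nat.eq_zero_or_pos n with h0 | h0
  · have : n * (tri L R O J).card = 0 := Nat.mul_eq_zero.mpr (Or.inl h0)
    rw [this]
    exact Nat.zero_le _
  have h3 : n ^ 2 * (tri L R O J).card ≤ n * ((D * A) ^ 2 * N ^ 3) := by
    calc n ^ 2 * (tri L R O J).card ≤ n ^ 2 * ∑ j ∈ J, ∑ y : X,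
          (univ.filter fun x => ∃ i, L x y = some (i, j)).card *
          (univ.filter fun z => ∃ k, R y z = some (j, k)).card := Nat.mul_le_mul_left _ h1
      _ = ∑ j ∈ J, ∑ y : X, (n * (univ.filter fun x => ∃ i, L x y = some (i, j)).card) *
          (n * (univ.filter fun z => ∃ k, R y z = some (j, k)).card) := by
          rw [mul_sum]
          refine sum_congr rfl fun j _ => ?_
          rw [mul_sum]
          refine sum_congr rfl fun y _ => ?_
          ring
      _ ≤ ∑ _j ∈ J, ∑ _y : X, (D * A * N) * (D * A * N) :=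
          sum_le_sum fun j hj => sum_le_sum fun y _ => Nat.mul_le_mul (b1 j hj y) (b2 j hj y)
      _ = J.card * (N * ((D * A * N) * (D * A * N))) := by
          rw [sum_const, sum_const, smul_eq_mul, smul_eq_mul, card_univ]
      _ ≤ n * (N * ((D * A * N) * (D * A * N))) := by
          refine Nat.mul_le_mul_right _ ?_
          simpa using card_le_univ J
      _ = n * ((D * A) ^ 2 * N ^ 3) := by ring
  refine Nat.le_of_mul_le_mul_left ?_ h0
  calc n * (n * (tri L R O J).card) = n ^ 2 * (tri L R O J).card := by ring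
    _ ≤ _ := h3

/-- few indices are frequent -/
theorem few_frequent (P : X × X → Fin n → Prop) [∀ j, DecidablePred fun p => P p j]
    (hP : ∀ p j j', P p j → P p j' → j = j') (A : ℕ) (hX : 0 < Fintype.card X) :
    A * (univ.filter fun j : Fin n => ¬ n * (univ.filter fun p : X × X => P p j).card ≤
      A * Fintype.card X ^ 2).card ≤ n := by
  classical
  set N := Fintype.card X with hN
  set B := univ.filter fun j : Fin n => ¬ n * (univ.filter fun p : X × X => P p j).card ≤
      A * N ^ 2 with hB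
  have h1 : ∑ j ∈ B, (univ.filter fun p : X × X => P p j).card ≤ N ^ 2 := by
    rw [← card_biUnion]
    · refine (card_le_univ _).trans (le_of_eq ?_)
      rw [Fintype.card_prod, hN, sq]
    · intro j _ j' _ hne
      rw [Function.onFun_apply, Finset.disjoint_left]
      intro p hp hp'
      exact hne (hP p j j' (mem_filter.1 hp).2 (mem_filter.1 hp').2)
  have hN2 : 0 < N ^ 2 := by positivity
  refine Nat.le_of_mul_le_mul_right ?_ hN2
  calc A * B.card * N ^ 2 = ∑ _j ∈ B, A * N ^ 2 := by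
        rw [sum_const, smul_eq_mul]
        ring
    _ ≤ ∑ j ∈ B, n * (univ.filter fun p : X × X => P p j).card :=
        sum_le_sum fun j hj => (not_le.mp (mem_filter.1 hj).2).le
    _ = n * ∑ j ∈ B, (univ.filter fun p : X × X => P p j).card := by rw [mul_sum]
    _ ≤ n * N ^ 2 := Nat.mul_le_mul_left _ h1

/-- a set of indices occurs in few triples -/
theorem card_bad (T : Finset (Fin n × Fin n × Fin n)) (Z : Finset (Fin n)) :
    (T.filter fun τ => τ.2.1 ∈ Z).card ≤ n ^ 2 * Z.card := by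
  classical
  have h : (T.filter fun τ => τ.2.1 ∈ Z) ⊆ (univ : Finset (Fin n)) ×ˢ (Z ×ˢ univ) := by
    intro τ hτ
    rw [mem_product, mem_product]
    exact ⟨mem_univ _, (mem_filter.1 hτ).2, mem_univ _⟩
  refine (card_le_card h).trans (le_of_eq ?_)
  rw [card_product, card_product]
  simp
  ring

/-- The main estimate. -/
theorem core {L R O : X → X → Option (Fin n × Fin n)} {D B E M : ℕ} (hn : 0 < n) (hB : 1 ≤ B)
    (hE : 1 ≤ E) (hX : 0 < Fintype.card X)
    (only : ∀ x y z i j j' k i' k', L x y = some (i, j) → R y z = some (j', k) →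
      O x z = some (i', k') → i = i' ∧ j = j' ∧ k = k')
    (degL : ∀ j y, Fintype.card X * (univ.filter fun x => ∃ i, L x y = some (i, j)).card ≤
      D * (univ.filter fun p : X × X => ∃ i, L p.1 p.2 = some (i, j)).card)
    (degR : ∀ j y, Fintype.card X * (univ.filter fun z => ∃ k, R y z = some (j, k)).card ≤
      D * (univ.filter fun p : X × X => ∃ k, R p.1 p.2 = some (j, k)).card)
    (T : Finset (Fin n × Fin n × Fin n))
    (hhit : ∀ τ ∈ T, ∀ S1 S2 S3 : Finset (X × X),
      (∀ x y z, L x y = some (τ.1, τ.2.1) → R y z = some (τ.2.1, τ.2.2) →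
        O x z = some (τ.1, τ.2.2) → (x, y) ∈ S1 ∨ (y, z) ∈ S2 ∨ (x, z) ∈ S3) →
      Fintype.card X ^ 2 ≤ M * ((S1.filter fun p => L p.1 p.2 = some (τ.1, τ.2.1)).card +
        (S2.filter fun p => R p.1 p.2 = some (τ.2.1, τ.2.2)).card +
        (S3.filter fun p => O p.1 p.2 = some (τ.1, τ.2.2)).card))
    (hT : n ^ 3 ≤ B * T.card) (hM : M ≤ E * n ^ 2) :
    (n : ℝ) * (27 * triangleRemovalBound (1 / (18 * (B * E)))) ≤ ((D * (4 * B) : ℕ) : ℝ) ^ 2 := by
  classical
  set N := Fintype.card X with hN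
  set ZL := univ.filter fun j : Fin n =>
    ¬ n * (univ.filter fun p : X × X => ∃ i, L p.1 p.2 = some (i, j)).card ≤ 4 * B * N ^ 2 with hZL
  set ZR := univ.filter fun j : Fin n =>
    ¬ n * (univ.filter fun p : X × X => ∃ k, R p.1 p.2 = some (j, k)).card ≤ 4 * B * N ^ 2 with hZR
  have f1 : 4 * B * ZL.card ≤ n := few_frequent (fun p j => ∃ i, L p.1 p.2 = some (i, j)) (by
    rintro p j j' ⟨i, h⟩ ⟨i', h'⟩
    rw [h] at h'
    exact congrArg Prod.snd (Option.some_injective _ h')) (4 * B) hX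
  have f2 : 4 * B * ZR.card ≤ n := few_frequent (fun p j => ∃ k, R p.1 p.2 = some (j, k)) (by
    rintro p j j' ⟨i, h⟩ ⟨i', h'⟩
    rw [h] at h'
    exact congrArg Prod.fst (Option.some_injective _ h')) (4 * B) hX
  set J := univ.filter fun j : Fin n => j ∉ ZL ∪ ZR with hJ
  set T' := T.filter fun τ => τ.2.1 ∈ J with hT'
  have g1 : T.card ≤ T'.card + (T.filter fun τ => τ.2.1 ∈ ZL ∪ ZR).card := by
    have : T = T' ∪ T.filter fun τ => τ.2.1 ∈ ZL ∪ ZR := by
      ext τ
      have e : τ.2.1 ∈ J ↔ τ.2.1 ∉ ZL ∪ ZR := by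
        rw [hJ, mem_filter]
        exact ⟨fun h => h.2, fun h => ⟨mem_univ _, h⟩⟩
      constructor
      · intro h
        by_cases h' : τ.2.1 ∈ ZL ∪ ZR
        · exact mem_union_right _ (mem_filter.2 ⟨h, h'⟩)
        · exact mem_union_left _ (mem_filter.2 ⟨h, e.2 h'⟩)
      · intro h
        rcases mem_union.1 h with h | h
        exacts [(mem_filter.1 h).1, (mem_filter.1 h).1]
    conv_lhs => rw [this]
    exact card_union_le _ _
  have g2 : (T.filter fun τ => τ.2.1 ∈ ZL ∪ ZR).card ≤ n ^ 2 * (ZL.card + ZR.card) :=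
    (card_bad T _).trans (Nat.mul_le_mul_left _ (card_union_le _ _))
  have g3 : T.card ≤ 2 * T'.card := by
    have h1 : 2 * B * (T.filter fun τ => τ.2.1 ∈ ZL ∪ ZR).card ≤ B * T.card := by
      calc 2 * B * (T.filter fun τ => τ.2.1 ∈ ZL ∪ ZR).card
          ≤ 2 * B * (n ^ 2 * (ZL.card + ZR.card)) := Nat.mul_le_mul_left _ g2
        _ ≤ n ^ 3 := by
            have : 4 * B * ZL.card + 4 * B * ZR.card ≤ 2 * n := by omega
            have h2 : 2 * (2 * B * (n ^ 2 * (ZL.card + ZR.card))) ≤ 2 * n ^ 3 := by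
              calc 2 * (2 * B * (n ^ 2 * (ZL.card + ZR.card))) =
                    n ^ 2 * (4 * B * ZL.card + 4 * B * ZR.card) := by ring
                _ ≤ n ^ 2 * (2 * n) := Nat.mul_le_mul_left _ this
                _ = 2 * n ^ 3 := by ring
            omega
        _ ≤ B * T.card := hT
    have h2 : 2 * (T.filter fun τ => τ.2.1 ∈ ZL ∪ ZR).card ≤ T.card := by
      refine Nat.le_of_mul_le_mul_left ?_ hB
      calc B * (2 * (T.filter fun τ => τ.2.1 ∈ ZL ∪ ZR).card) =
            2 * B * (T.filter fun τ => τ.2.1 ∈ ZL ∪ ZR).card := by ring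
        _ ≤ _ := h1
    omega
  have hn3 : 0 < n ^ 3 := by positivity
  have g4 : n ^ 3 ≤ 2 * B * T'.card := by
    calc n ^ 3 ≤ B * T.card := hT
      _ ≤ B * (2 * T'.card) := Nat.mul_le_mul_left _ g3
      _ = 2 * B * T'.card := by ring
  have hT'0 : 0 < T'.card := by
    rcases Nat.eq_zero_or_pos T'.card with h | h
    · rw [h] at g4
      omega
    · exact h
  -- the graph is far from triangle-free
  have hfar : (graph (tri L R O J)).FarFromTriangleFree (1 / (18 * (B * E) : ℝ)) := by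
    intro s _ hs
    have h1 := far T' (fun τ hτ => (mem_filter.1 hτ).2) M
      (fun τ hτ => hhit τ (mem_filter.1 hτ).1) hs
    have h2 : N ^ 2 ≤ 2 * B * E * s.card := by
      refine Nat.le_of_mul_le_mul_left ?_ hT'0
      calc T'.card * N ^ 2 ≤ M * n * s.card := h1
        _ ≤ E * n ^ 2 * n * s.card := by gcongr
        _ = E * n ^ 3 * s.card := by ring
        _ ≤ E * (2 * B * T'.card) * s.card := by gcongr
        _ = T'.card * (2 * B * E * s.card) := by ring
    have h3 : ((N : ℝ)) ^ 2 ≤ 2 * B * E * s.card := by exact_mod_cast h2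
    have hB' : (0 : ℝ) < B := by exact_mod_cast hB
    have hE' : (0 : ℝ) < E := by exact_mod_cast hE
    have h4 : ((Fintype.card (X ⊕ X ⊕ X) ^ 2 : ℕ) : ℝ) = 9 * (N : ℝ) ^ 2 := by
      rw [Fintype.card_sum, Fintype.card_sum, ← hN]
      push_cast
      ring
    rw [h4, div_mul_eq_mul_div, one_mul, div_le_iff₀ (by positivity)]
    linarith
  have h5 := hfar.le_card_cliqueFinset
  have h6 : ((Fintype.card (X ⊕ X ⊕ X) : ℝ)) ^ 3 = 27 * (N : ℝ) ^ 3 := by
    rw [Fintype.card_sum, Fintype.card_sum, ← hN]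
    push_cast
    ring
  rw [h6] at h5
  have h7 : (((graph (tri L R O J)).cliqueFinset 3).card : ℝ) ≤ (tri L R O J).card := by
    exact_mod_cast card_cliques only
  have h8 : n * (tri L R O J).card ≤ (D * (4 * B)) ^ 2 * N ^ 3 :=
    card_tri hX degL degR
      (fun j hj => by
        by_contra hcon
        have h := (mem_filter.1 hj).2
        exact h (mem_union_left _ (mem_filter.2 ⟨mem_univ _, hcon⟩)))
      (fun j hj => by
        by_contra hcon
        have h := (mem_filter.1 hj).2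
        exact h (mem_union_right _ (mem_filter.2 ⟨mem_univ _, hcon⟩)))
  have h9 : (n : ℝ) * (tri L R O J).card ≤ ((D * (4 * B) : ℕ) : ℝ) ^ 2 * (N : ℝ) ^ 3 := by
    exact_mod_cast h8
  have hN3 : (0 : ℝ) < (N : ℝ) ^ 3 := by
    have : (0 : ℝ) < N := by exact_mod_cast hX
    positivity
  refine le_of_mul_le_mul_right ?_ hN3
  calc (n : ℝ) * (27 * triangleRemovalBound (1 / (18 * (B * E)))) * (N : ℝ) ^ 3 =
        (n : ℝ) * (triangleRemovalBound (1 / (18 * (B * E))) * (27 * (N : ℝ) ^ 3)) := by ring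
    _ ≤ (n : ℝ) * (tri L R O J).card := by
        refine mul_le_mul_of_nonneg_left ?_ (Nat.cast_nonneg n)
        exact h5.trans h7
    _ ≤ _ := h9

end Pool.Agent.Zk73.CC
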