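import Pool.Agent.Zk73.CC.Defs
import Pool.Agent.Zk73.CC.Core

/-!
# Triangles in coherent configurations
-/

set_option autoImplicit false
set_option linter.unusedSectionVars false

open Finset

namespace Pool.Agent.Zk73.CC

/-- a set with constant fibres over `R` -/
theorem count {Y P X : Type} [Fintype X] [DecidableEq Y] [DecidableEq P]
    (T : Finset Y) (e : Y ≃ P × X) (R Q : Finset P) (p : ℕ) (h1 : ∀ t ∈ T, (e t).1 ∈ R)
    (h2 : ∀ q ∈ R, (univ.filter fun z : X => e.symm (q, z) ∈ T).card = p) :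
    (T.filter fun t => (e t).1 ∈ Q).card = p * (Q.filter fun q => q ∈ R).card := by
  classical
  have h3 : ∀ t ∈ T.filter fun t => (e t).1 ∈ Q, (e t).1 ∈ Q.filter fun q => q ∈ R := by
    intro t ht
    obtain ⟨a, b⟩ := mem_filter.1 ht
    exact mem_filter.2 ⟨b, h1 t a⟩
  rw [card_eq_sum_card_fiberwise h3]
  have h4 : ∀ q ∈ Q.filter fun q => q ∈ R,
      ((T.filter fun t => (e t).1 ∈ Q).filter fun t => (e t).1 = q).card = p := by
    intro q hq
    obtain ⟨a, b⟩ := mem_filter.1 hq
    rw [← h2 q b]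
    refine card_bij' (fun t _ => (e t).2) (fun z _ => e.symm (q, z)) ?_ ?_ ?_ ?_
    · intro t ht
      obtain ⟨c, d⟩ := mem_filter.1 ht
      rw [mem_filter]
      refine ⟨mem_univ _, ?_⟩
      have : (q, (e t).2) = e t := by rw [← d]
      rw [this, e.symm_apply_apply]
      exact (mem_filter.1 c).1
    · intro z hz
      rw [mem_filter, mem_filter, e.apply_symm_apply]
      exact ⟨⟨(mem_filter.1 hz).2, a⟩, rfl⟩
    · intro t ht
      obtain ⟨c, d⟩ := mem_filter.1 ht
      have : (q, (e t).2) = e t := by rw [← d]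
      rw [this, e.symm_apply_apply]
    · intro z _
      rw [e.apply_symm_apply]
  rw [sum_congr rfl h4, sum_const, smul_eq_mul, Nat.mul_comm]

/-- the pair of the first two, the last two, and the outer two of three points -/
def e12 (X : Type) : X × X × X ≃ (X × X) × X where
  toFun t := ((t.1, t.2.1), t.2.2)
  invFun t := (t.1.1, t.1.2, t.2)
  left_inv _ := rfl
  right_inv _ := rfl

def e23 (X : Type) : X × X × X ≃ (X × X) × X where
  toFun t := ((t.2.1, t.2.2), t.1)
  invFun t := (t.2, t.1.1, t.1.2)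
  left_inv _ := rfl
  right_inv _ := rfl

def e13 (X : Type) : X × X × X ≃ (X × X) × X where
  toFun t := ((t.1, t.2.2), t.2.1)
  invFun t := (t.1.1, t.2, t.1.2)
  left_inv _ := rfl
  right_inv _ := rfl

variable {X K : Type} [Fintype X] [DecidableEq X] [DecidableEq K] {cls : X → X → K}

theorem natcard_eq (P : X → Prop) [DecidablePred P] :
    Nat.card {y // P y} = (univ.filter P).card := by
  rw [Nat.card_eq_fintype_card, Fintype.card_subtype]

/-- the set of the triangles of one type -/
def typ (cls : X → X → K) (a b c : K) : Finset (X × X × X) :=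
  univ.filter fun t => cls t.1 t.2.1 = a ∧ cls t.2.1 t.2.2 = b ∧ cls t.1 t.2.2 = c

theorem mem_typ {a b c : K} {x y z : X} :
    (x, y, z) ∈ typ cls a b c ↔ cls x y = a ∧ cls y z = b ∧ cls x z = c := by
  unfold typ
  rw [mem_filter]
  exact ⟨fun h => h.2, fun h => ⟨mem_univ _, h⟩⟩

/-- A set of pairs which meets all triangles of one type has at least as many pairs of this type
as the smallest of the three classes. -/
theorem hit (h : IsCoherent cls) (x0 y0 z0 : X) (S1 S2 S3 : Finset (X × X))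
    (hS : ∀ x y z, cls x y = cls x0 y0 → cls y z = cls y0 z0 → cls x z = cls x0 z0 →
      (x, y) ∈ S1 ∨ (y, z) ∈ S2 ∨ (x, z) ∈ S3) (M N : ℕ)
    (h1 : N ≤ M * (univ.filter fun p : X × X => cls p.1 p.2 = cls x0 y0).card)
    (h2 : N ≤ M * (univ.filter fun p : X × X => cls p.1 p.2 = cls y0 z0).card)
    (h3 : N ≤ M * (univ.filter fun p : X × X => cls p.1 p.2 = cls x0 z0).card) :
    N ≤ M * ((S1.filter fun p => cls p.1 p.2 = cls x0 y0).card +
      (S2.filter fun p => cls p.1 p.2 = cls y0 z0).card +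
      (S3.filter fun p => cls p.1 p.2 = cls x0 z0).card) := by
  classical
  set a := cls x0 y0 with ha
  set b := cls y0 z0 with hb
  set c := cls x0 z0 with hc
  set T := typ cls a b c with hT
  set R1 := univ.filter fun p : X × X => cls p.1 p.2 = a with hR1
  set R2 := univ.filter fun p : X × X => cls p.1 p.2 = b with hR2
  set R3 := univ.filter fun p : X × X => cls p.1 p.2 = c with hR3
  have hT0 : 0 < T.card := card_pos.mpr ⟨(x0, y0, z0), mem_typ.mpr ⟨rfl, rfl, rfl⟩⟩
  -- transposes
  have ta : ∀ x y, cls x y = a ↔ cls y x = cls y0 x0 := fun x y =>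
    ⟨fun e => h.symm _ _ _ _ e, fun e => h.symm _ _ _ _ e⟩
  have tb : ∀ x y, cls x y = b ↔ cls y x = cls z0 y0 := fun x y =>
    ⟨fun e => h.symm _ _ _ _ e, fun e => h.symm _ _ _ _ e⟩
  -- the three multiplicities
  obtain ⟨p1, hp1⟩ : ∃ p1, ∀ q ∈ R1,
      (univ.filter fun z : X => (e12 X).symm (q, z) ∈ T).card = p1 := by
    refine ⟨(univ.filter fun z : X => (e12 X).symm ((x0, y0), z) ∈ T).card, ?_⟩
    rintro ⟨x, y⟩ hq
    have e : cls x y = cls x0 y0 := (mem_filter.1 hq).2
    have key : ∀ x y : X, cls x y = a → (univ.filter fun z : X => (e12 X).symm ((x, y), z) ∈ T) =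
        univ.filter fun z => cls x z = c ∧ cls z y = cls z0 y0 := by
      intro x y hxy
      ext z
      rw [mem_filter, mem_filter]
      refine and_congr Iff.rfl ?_
      refine (mem_typ (x := x) (y := y) (z := z)).trans ?_
      rw [← tb]
      tauto
    rw [key x y e, key x0 y0 rfl, ← natcard_eq, ← natcard_eq]
    exact h.inter _ _ _ _ _ _ e
  obtain ⟨p2, hp2⟩ : ∃ p2, ∀ q ∈ R2,
      (univ.filter fun z : X => (e23 X).symm (q, z) ∈ T).card = p2 := by
    refine ⟨(univ.filter fun z : X => (e23 X).symm ((y0, z0), z) ∈ T).card, ?_⟩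
    rintro ⟨y, z⟩ hq
    have e : cls y z = cls y0 z0 := (mem_filter.1 hq).2
    have key : ∀ y z : X, cls y z = b → (univ.filter fun x : X => (e23 X).symm ((y, z), x) ∈ T) =
        univ.filter fun x => cls y x = cls y0 x0 ∧ cls x z = c := by
      intro y z hyz
      ext x
      rw [mem_filter, mem_filter]
      refine and_congr Iff.rfl ?_
      refine (mem_typ (x := x) (y := y) (z := z)).trans ?_
      rw [ta]
      tauto
    rw [key y z e, key y0 z0 rfl, ← natcard_eq, ← natcard_eq]
    exact h.inter _ _ _ _ _ _ e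
  obtain ⟨p3, hp3⟩ : ∃ p3, ∀ q ∈ R3,
      (univ.filter fun z : X => (e13 X).symm (q, z) ∈ T).card = p3 := by
    refine ⟨(univ.filter fun z : X => (e13 X).symm ((x0, z0), z) ∈ T).card, ?_⟩
    rintro ⟨x, z⟩ hq
    have e : cls x z = cls x0 z0 := (mem_filter.1 hq).2
    have key : ∀ x z : X, cls x z = c → (univ.filter fun y : X => (e13 X).symm ((x, z), y) ∈ T) =
        univ.filter fun y => cls x y = a ∧ cls y z = b := by
      intro x z hxz
      ext y
      rw [mem_filter, mem_filter]
      refine and_congr Iff.rfl ?_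
      refine (mem_typ (x := x) (y := y) (z := z)).trans ?_
      tauto
    rw [key x z e, key x0 z0 rfl, ← natcard_eq, ← natcard_eq]
    exact h.inter _ _ _ _ _ _ e
  have m1 : ∀ t ∈ T, (e12 X t).1 ∈ R1 := fun t ht =>
    mem_filter.2 ⟨mem_univ _, (mem_filter.1 ht).2.1⟩
  have m2 : ∀ t ∈ T, (e23 X t).1 ∈ R2 := fun t ht =>
    mem_filter.2 ⟨mem_univ _, (mem_filter.1 ht).2.2.1⟩
  have m3 : ∀ t ∈ T, (e13 X t).1 ∈ R3 := fun t ht =>
    mem_filter.2 ⟨mem_univ _, (mem_filter.1 ht).2.2.2⟩
  have c1 := fun Q => count T (e12 X) R1 Q p1 m1 hp1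
  have c2 := fun Q => count T (e23 X) R2 Q p2 m2 hp2
  have c3 := fun Q => count T (e13 X) R3 Q p3 m3 hp3
  -- the sizes
  have s1 : T.card = p1 * R1.card := by
    have := c1 univ
    simpa using this
  have s2 : T.card = p2 * R2.card := by
    have := c2 univ
    simpa using this
  have s3 : T.card = p3 * R3.card := by
    have := c3 univ
    simpa using this
  have hsub : T ⊆ (T.filter fun t => (e12 X t).1 ∈ S1) ∪ (T.filter fun t => (e23 X t).1 ∈ S2) ∪
      (T.filter fun t => (e13 X t).1 ∈ S3) := by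
    rintro ⟨x, y, z⟩ ht
    obtain ⟨k1, k2, k3⟩ := mem_typ.mp ht
    rw [mem_union, mem_union, mem_filter, mem_filter, mem_filter]
    rcases hS x y z k1 k2 k3 with k | k | k
    exacts [Or.inl (Or.inl ⟨ht, k⟩), Or.inl (Or.inr ⟨ht, k⟩), Or.inr ⟨ht, k⟩]
  have hcard := (card_le_card hsub).trans ((card_union_le _ _).trans
    (Nat.add_le_add_right (card_union_le _ _) _))
  rw [c1 S1, c2 S2, c3 S3] at hcard
  have q1 : (S1.filter fun q => q ∈ R1) = S1.filter fun p => cls p.1 p.2 = a := by
    refine filter_congr fun p _ => ?_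
    rw [hR1, mem_filter]
    exact ⟨fun k => k.2, fun k => ⟨mem_univ _, k⟩⟩
  have q2 : (S2.filter fun q => q ∈ R2) = S2.filter fun p => cls p.1 p.2 = b := by
    refine filter_congr fun p _ => ?_
    rw [hR2, mem_filter]
    exact ⟨fun k => k.2, fun k => ⟨mem_univ _, k⟩⟩
  have q3 : (S3.filter fun q => q ∈ R3) = S3.filter fun p => cls p.1 p.2 = c := by
    refine filter_congr fun p _ => ?_
    rw [hR3, mem_filter]
    exact ⟨fun k => k.2, fun k => ⟨mem_univ _, k⟩⟩
  rw [q1, q2, q3] at hcard
  refine Nat.le_of_mul_le_mul_left ?_ hT0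
  have w1 : p1 * N ≤ M * T.card := by
    calc p1 * N ≤ p1 * (M * R1.card) := Nat.mul_le_mul_left _ h1
      _ = M * T.card := by rw [s1]; ring
  have w2 : p2 * N ≤ M * T.card := by
    calc p2 * N ≤ p2 * (M * R2.card) := Nat.mul_le_mul_left _ h2
      _ = M * T.card := by rw [s2]; ring
  have w3 : p3 * N ≤ M * T.card := by
    calc p3 * N ≤ p3 * (M * R3.card) := Nat.mul_le_mul_left _ h3
      _ = M * T.card := by rw [s3]; ring
  calc T.card * N ≤ (p1 * (S1.filter fun p => cls p.1 p.2 = a).card +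
        p2 * (S2.filter fun p => cls p.1 p.2 = b).card +
        p3 * (S3.filter fun p => cls p.1 p.2 = c).card) * N := Nat.mul_le_mul_right _ hcard
    _ = (p1 * N) * (S1.filter fun p => cls p.1 p.2 = a).card +
        (p2 * N) * (S2.filter fun p => cls p.1 p.2 = b).card +
        (p3 * N) * (S3.filter fun p => cls p.1 p.2 = c).card := by ring
    _ ≤ (M * T.card) * (S1.filter fun p => cls p.1 p.2 = a).card +
        (M * T.card) * (S2.filter fun p => cls p.1 p.2 = b).card +
        (M * T.card) * (S3.filter fun p => cls p.1 p.2 = c).card := by gcongr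
    _ = _ := by ring

end Pool.Agent.Zk73.CC
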