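import Mathlib

/-!
# Coherent configurations and matrix multiplication: definitions
-/

set_option autoImplicit false

namespace Pool.Agent.Zk73.CC

/-- A coherent configuration on `X`: `cls x y` is the class of the pair `(x, y)`. The diagonal is a
union of classes, the transpose of a class is a class, and for all classes `a`, `b` the number of
the `y` with `(x, y)` in `a` and `(y, z)` in `b` depends only on the class of `(x, z)`. -/
structure IsCoherent {X K : Type} (cls : X → X → K) : Prop where
  diag : ∀ x y z, cls x x = cls y z → y = z
  symm : ∀ x y x' y', cls x y = cls x' y' → cls y x = cls y' x'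
  inter : ∀ (a b : K) (x z x' z' : X), cls x z = cls x' z' →
    Nat.card {y // cls x y = a ∧ cls y z = b} = Nat.card {y // cls x' y = a ∧ cls y z' = b}

/-- The class `a` contains at least `|X| ^ 2 / (C r)` pairs, and its rows and columns (the sets of
the pairs in `a` with a given first or second element) have at most `C` times the average size
`|a| / |X|`. If the configuration is homogeneous (the diagonal is one class), all rows and columns
of a class have the same size, and only the first condition is left. -/
structure Thick {X K : Type} (cls : X → X → K) (C r : ℕ) (a : K) : Prop where
  size : Nat.card X ^ 2 ≤ C * r * Nat.card {p : X × X // cls p.1 p.2 = a}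
  row : ∀ x, Nat.card X * Nat.card {y // cls x y = a} ≤
    C * Nat.card {p : X × X // cls p.1 p.2 = a}
  col : ∀ y, Nat.card X * Nat.card {x // cls x y = a} ≤
    C * Nat.card {p : X × X // cls p.1 p.2 = a}

/-- Finitely many configurations are given, and their classes are labelled by positions of entries of
the first matrix (`left`), of the second matrix (`right`) and of the product (`out`), or by none.
`Occurs` says that for `τ = (i, j, k)` there are classes `a`, `b`, `c` of one configuration with the
labels `(i, j)`, `(j, k)`, `(i, k)` and with a nonzero intersection number (i.e. there are points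
`x`, `y`, `z` with `(x, y)` in `a`, `(y, z)` in `b` and `(x, z)` in `c`). -/
def Occurs {n : ℕ} {ι : Type} {X K : ι → Type} (cls : ∀ m, X m → X m → K m)
    (left right out : ∀ m, K m → Option (Fin n × Fin n)) (τ : Fin n × Fin n × Fin n) : Prop :=
  ∃ m x y z, left m (cls m x y) = some (τ.1, τ.2.1) ∧
    right m (cls m y z) = some (τ.2.1, τ.2.2) ∧ out m (cls m x z) = some (τ.1, τ.2.2)

/-- There are no other nonzero intersection numbers: if classes `a`, `b`, `c` with the labels
`(i, j)`, `(j', k)`, `(i', k')` have a nonzero intersection number then `i = i'`, `j = j'`,
`k = k'`. -/
def NoOthers {n : ℕ} {ι : Type} {X K : ι → Type} (cls : ∀ m, X m → X m → K m)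
    (left right out : ∀ m, K m → Option (Fin n × Fin n)) : Prop :=
  ∀ m x y z i j j' k i' k', left m (cls m x y) = some (i, j) →
    right m (cls m y z) = some (j', k) → out m (cls m x z) = some (i', k') →
      i = i' ∧ j = j' ∧ k = k'

/-- The entry of the matrix `A` in the position `p`, and zero if there is no position. -/
def entry {n : ℕ} (A : Matrix (Fin n) (Fin n) ℝ) : Option (Fin n × Fin n) → ℝ
  | none => 0
  | some p => A p.1 p.2

/-- The linear combination of the adjacency matrices of the classes, where the class `a` has the
coefficient `w a` times the entry of `A` at the label of `a`. -/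
def place {n : ℕ} {X K : Type} (cls : X → X → K) (w : K → ℝ) (lab : K → Option (Fin n × Fin n))
    (A : Matrix (Fin n) (Fin n) ℝ) : Matrix X X ℝ :=
  Matrix.of fun x y => w (cls x y) * entry A (lab (cls x y))

open Classical in
/-- An algorithm for the product of two `n × n` matrices by multiplications in coherent algebras:
the entries of the two factors are placed at classes, with weights `u`, `v`, and the entries of the
output are sums of entries of the products, with weights `w`, over the classes with the given label.
The entry of the output in the position `(i, k)` is `∑ j, l (i, j, k) * (A i j * B j k)`; so it is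
the entry of the product `A B` if all `l (i, j, k)` are `1`, and a weighted sum of some of the
elementary products in general. -/
def Computes {n : ℕ} {ι : Type} [Fintype ι] {X K : ι → Type} [∀ m, Fintype (X m)]
    (cls : ∀ m, X m → X m → K m) (left right out : ∀ m, K m → Option (Fin n × Fin n))
    (u v w : ∀ m, K m → ℝ) (l : Fin n × Fin n × Fin n → ℝ) : Prop :=
  ∀ (A B : Matrix (Fin n) (Fin n) ℝ) (i k : Fin n),
    ∑ m, ∑ x : X m, ∑ z : X m, (if out m (cls m x z) = some (i, k) then
      w m (cls m x z) * (place (cls m) (u m) (left m) A * place (cls m) (v m) (right m) B) x z
      else 0) = ∑ j, l (i, j, k) * (A i j * B j k)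

end Pool.Agent.Zk73.CC
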