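import Pool.Agent.Zk73.CC.Coh

/-!
# Families of coherent configurations
-/

set_option autoImplicit false
set_option linter.unusedSectionVars false

open Finset SimpleGraph

namespace Pool.Agent.Zk73.CC

section

variable {X K : Type} [Fintype X] [DecidableEq X] [DecidableEq K] {cls : X → X → K} {C r : ℕ}

theorem Thick.size' {a : K} (h : Thick cls C r a) :
    Fintype.card X ^ 2 ≤ C * r * (univ.filter fun p : X × X => cls p.1 p.2 = a).card := by
  have := h.size
  rwa [natcard_eq, Nat.card_eq_fintype_card] at this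

/-- columns of unions of thick classes -/
theorem deg_col (Q : K → Prop) [DecidablePred Q]
    (hQ : ∀ x y, Q (cls x y) → Thick cls C r (cls x y)) (y : X) :
    Fintype.card X * (univ.filter fun x => Q (cls x y)).card ≤
      C * (univ.filter fun p : X × X => Q (cls p.1 p.2)).card := by
  classical
  set A := (univ.image fun p : X × X => cls p.1 p.2).filter Q with hA
  have h1 : ∀ x ∈ univ.filter fun x => Q (cls x y), cls x y ∈ A := by
    intro x hx
    exact mem_filter.2 ⟨mem_image.2 ⟨(x, y), mem_univ _, rfl⟩, (mem_filter.1 hx).2⟩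
  have h2 : ∀ p ∈ univ.filter fun p : X × X => Q (cls p.1 p.2), cls p.1 p.2 ∈ A := by
    intro p hp
    exact mem_filter.2 ⟨mem_image.2 ⟨p, mem_univ _, rfl⟩, (mem_filter.1 hp).2⟩
  rw [card_eq_sum_card_fiberwise h1, card_eq_sum_card_fiberwise h2, mul_sum, mul_sum]
  refine sum_le_sum fun a ha => ?_
  obtain ⟨ha1, ha2⟩ := mem_filter.1 ha
  obtain ⟨p, -, hp⟩ := mem_image.1 ha1
  have e1 : ((univ.filter fun x => Q (cls x y)).filter fun x => cls x y = a) =
      univ.filter fun x => cls x y = a := by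
    ext x
    simp only [mem_filter, mem_univ, true_and]
    exact ⟨fun h => h.2, fun h => ⟨by rw [h]; exact ha2, h⟩⟩
  have e2 : ((univ.filter fun p : X × X => Q (cls p.1 p.2)).filter fun p => cls p.1 p.2 = a) =
      univ.filter fun p : X × X => cls p.1 p.2 = a := by
    ext x
    simp only [mem_filter, mem_univ, true_and]
    exact ⟨fun h => h.2, fun h => ⟨by rw [h]; exact ha2, h⟩⟩
  rw [e1, e2]
  have hc : Thick cls C r a := by
    have := hQ p.1 p.2 (by rw [hp]; exact ha2)
    rwa [hp] at this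
  have hcol := hc.col y
  rwa [natcard_eq, natcard_eq, Nat.card_eq_fintype_card] at hcol

/-- rows of unions of thick classes -/
theorem deg_row (Q : K → Prop) [DecidablePred Q]
    (hQ : ∀ x y, Q (cls x y) → Thick cls C r (cls x y)) (x : X) :
    Fintype.card X * (univ.filter fun y => Q (cls x y)).card ≤
      C * (univ.filter fun p : X × X => Q (cls p.1 p.2)).card := by
  classical
  set A := (univ.image fun p : X × X => cls p.1 p.2).filter Q with hA
  have h1 : ∀ y ∈ univ.filter fun y => Q (cls x y), cls x y ∈ A := by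
    intro y hy
    exact mem_filter.2 ⟨mem_image.2 ⟨(x, y), mem_univ _, rfl⟩, (mem_filter.1 hy).2⟩
  have h2 : ∀ p ∈ univ.filter fun p : X × X => Q (cls p.1 p.2), cls p.1 p.2 ∈ A := by
    intro p hp
    exact mem_filter.2 ⟨mem_image.2 ⟨p, mem_univ _, rfl⟩, (mem_filter.1 hp).2⟩
  rw [card_eq_sum_card_fiberwise h1, card_eq_sum_card_fiberwise h2, mul_sum, mul_sum]
  refine sum_le_sum fun a ha => ?_
  obtain ⟨ha1, ha2⟩ := mem_filter.1 ha
  obtain ⟨p, -, hp⟩ := mem_image.1 ha1
  have e1 : ((univ.filter fun y => Q (cls x y)).filter fun y => cls x y = a) =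
      univ.filter fun y => cls x y = a := by
    ext y
    simp only [mem_filter, mem_univ, true_and]
    exact ⟨fun h => h.2, fun h => ⟨by rw [h]; exact ha2, h⟩⟩
  have e2 : ((univ.filter fun p : X × X => Q (cls p.1 p.2)).filter fun p => cls p.1 p.2 = a) =
      univ.filter fun p : X × X => cls p.1 p.2 = a := by
    ext y
    simp only [mem_filter, mem_univ, true_and]
    exact ⟨fun h => h.2, fun h => ⟨by rw [h]; exact ha2, h⟩⟩
  rw [e1, e2]
  have hc : Thick cls C r a := by
    have := hQ p.1 p.2 (by rw [hp]; exact ha2)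
    rwa [hp] at this
  have hrow := hc.row x
  rwa [natcard_eq, natcard_eq, Nat.card_eq_fintype_card] at hrow

/-- the number of the labels which occur -/
theorem labels {V : Type} [Fintype V] [DecidableEq V] (hX : 0 < Fintype.card X)
    (lab : K → Option V)
    (hQ : ∀ x y, lab (cls x y) ≠ none → Thick cls C r (cls x y)) :
    (univ.filter fun v : V => ∃ x y, lab (cls x y) = some v).card ≤ C * r := by
  classical
  set N := Fintype.card X with hN
  have hN2 : 0 < N ^ 2 := by positivity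
  set S := univ.filter fun v : V => ∃ x y, lab (cls x y) = some v with hS
  have h1 : ∑ v ∈ S, (univ.filter fun p : X × X => lab (cls p.1 p.2) = some v).card ≤ N ^ 2 := by
    rw [← card_biUnion]
    · refine (card_le_univ _).trans (le_of_eq ?_)
      rw [Fintype.card_prod, hN, sq]
    · intro v _ v' _ hne
      rw [Function.onFun_apply, Finset.disjoint_left]
      intro p hp hp'
      exact hne (Option.some_injective _ ((mem_filter.1 hp).2.symm.trans (mem_filter.1 hp').2))
  refine Nat.le_of_mul_le_mul_right ?_ hN2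
  calc S.card * N ^ 2 = ∑ _v ∈ S, N ^ 2 := by rw [sum_const, smul_eq_mul]
    _ ≤ ∑ v ∈ S, C * r * (univ.filter fun p : X × X => lab (cls p.1 p.2) = some v).card := by
        refine sum_le_sum fun v hv => ?_
        obtain ⟨x, y, e⟩ := (mem_filter.1 hv).2
        have hc := (hQ x y (by rw [e]; simp)).size'
        refine hc.trans (Nat.mul_le_mul_left _ (card_le_card ?_))
        intro p hp
        have := (mem_filter.1 hp).2
        exact mem_filter.2 ⟨mem_univ _, by rw [this, e]⟩
    _ = C * r * ∑ v ∈ S, (univ.filter fun p : X × X => lab (cls p.1 p.2) = some v).card := by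
        rw [mul_sum]
    _ ≤ C * r * N ^ 2 := Nat.mul_le_mul_left _ h1

end

/-- Loomis and Whitney -/
theorem lw {n : ℕ} (T : Finset (Fin n × Fin n × Fin n)) (S1 S2 S3 : Finset (Fin n × Fin n))
    (h1 : ∀ τ ∈ T, (τ.1, τ.2.1) ∈ S1) (h2 : ∀ τ ∈ T, (τ.2.1, τ.2.2) ∈ S2)
    (h3 : ∀ τ ∈ T, (τ.1, τ.2.2) ∈ S3) : T.card ^ 2 ≤ S1.card * S2.card * S3.card := by
  classical
  have e1 : T.card = ∑ q ∈ S3, (T.filter fun τ => (τ.1, τ.2.2) = q).card :=
    card_eq_sum_card_fiberwise h3
  have e2 : ∀ q : Fin n × Fin n, (T.filter fun τ => (τ.1, τ.2.2) = q).card ^ 2 ≤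
      (S1.filter fun p => p.1 = q.1).card * (S2.filter fun p => p.2 = q.2).card := by
    intro q
    rw [sq]
    refine Nat.mul_le_mul ?_ ?_
    · refine card_le_card_of_injOn (fun τ => (τ.1, τ.2.1)) ?_ ?_
      · intro τ hτ
        obtain ⟨a, b⟩ := mem_filter.1 (mem_coe.1 hτ)
        have b1 : τ.1 = q.1 := by rw [← b]
        exact mem_coe.2 (mem_filter.2 ⟨h1 τ a, b1⟩)
      · intro τ hτ τ' hτ' e
        obtain ⟨a, b⟩ := mem_filter.1 (mem_coe.1 hτ)
        obtain ⟨a', b'⟩ := mem_filter.1 (mem_coe.1 hτ')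
        have b2 := congrArg Prod.snd (b.trans b'.symm)
        simp only [Prod.mk.injEq] at e b2
        exact Prod.ext e.1 (Prod.ext e.2 b2)
    · refine card_le_card_of_injOn (fun τ => (τ.2.1, τ.2.2)) ?_ ?_
      · intro τ hτ
        obtain ⟨a, b⟩ := mem_filter.1 (mem_coe.1 hτ)
        have b1 : τ.2.2 = q.2 := by rw [← b]
        exact mem_coe.2 (mem_filter.2 ⟨h2 τ a, b1⟩)
      · intro τ hτ τ' hτ' e
        obtain ⟨a, b⟩ := mem_filter.1 (mem_coe.1 hτ)
        obtain ⟨a', b'⟩ := mem_filter.1 (mem_coe.1 hτ')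
        have b2 := congrArg Prod.fst (b.trans b'.symm)
        simp only [Prod.mk.injEq] at e b2
        exact Prod.ext b2 (Prod.ext e.1 e.2)
  have e3 : ∑ q : Fin n × Fin n,
      (S1.filter fun p => p.1 = q.1).card * (S2.filter fun p => p.2 = q.2).card =
      S1.card * S2.card := by
    rw [Fintype.sum_prod_type]
    have a1 : S1.card = ∑ i : Fin n, (S1.filter fun p => p.1 = i).card :=
      card_eq_sum_card_fiberwise fun _ _ => mem_coe.2 (mem_univ _)
    have a2 : S2.card = ∑ k : Fin n, (S2.filter fun p => p.2 = k).card :=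
      card_eq_sum_card_fiberwise fun _ _ => mem_coe.2 (mem_univ _)
    rw [a1, a2, sum_mul_sum]
  calc T.card ^ 2 = (∑ q ∈ S3, (T.filter fun τ => (τ.1, τ.2.2) = q).card) ^ 2 := by rw [← e1]
    _ ≤ S3.card * ∑ q ∈ S3, (T.filter fun τ => (τ.1, τ.2.2) = q).card ^ 2 :=
        sq_sum_le_card_mul_sum_sq
    _ ≤ S3.card * ∑ q ∈ S3, (S1.filter fun p => p.1 = q.1).card *
          (S2.filter fun p => p.2 = q.2).card :=
        Nat.mul_le_mul_left _ (sum_le_sum fun q _ => e2 q)
    _ ≤ S3.card * ∑ q : Fin n × Fin n, (S1.filter fun p => p.1 = q.1).card *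
          (S2.filter fun p => p.2 = q.2).card :=
        Nat.mul_le_mul_left _ (sum_le_sum_of_subset (subset_univ _))
    _ = S1.card * S2.card * S3.card := by rw [e3]; ring

open Classical in
/-- the triples of indices which occur in one configuration -/
noncomputable def occ {n : ℕ} {X K : Type} (cls : X → X → K)
    (left right out : K → Option (Fin n × Fin n)) : Finset (Fin n × Fin n × Fin n) :=
  univ.filter fun τ => ∃ x y z, left (cls x y) = some (τ.1, τ.2.1) ∧
    right (cls y z) = some (τ.2.1, τ.2.2) ∧ out (cls x z) = some (τ.1, τ.2.2)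

theorem mem_occ {n : ℕ} {X K : Type} {cls : X → X → K}
    {left right out : K → Option (Fin n × Fin n)} {τ : Fin n × Fin n × Fin n} :
    τ ∈ occ cls left right out ↔ ∃ x y z, left (cls x y) = some (τ.1, τ.2.1) ∧
    right (cls y z) = some (τ.2.1, τ.2.2) ∧ out (cls x z) = some (τ.1, τ.2.2) := by
  classical
  unfold occ
  rw [mem_filter]
  exact ⟨fun h => h.2, fun h => ⟨mem_univ _, h⟩⟩

/-- the estimate for one configuration -/
theorem one {n C r : ℕ} (hn : 0 < n) (hC : 1 ≤ C) {X K : Type} [Fintype X] {cls : X → X → K}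
    {left right out : K → Option (Fin n × Fin n)} (hcoh : IsCoherent cls)
    (hcomp : ∀ x y, (left (cls x y) ≠ none ∨ right (cls x y) ≠ none ∨ out (cls x y) ≠ none) →
      Thick cls C r (cls x y))
    (only : ∀ x y z i j j' k i' k', left (cls x y) = some (i, j) →
      right (cls y z) = some (j', k) → out (cls x z) = some (i', k') → i = i' ∧ j = j' ∧ k = k')
    (hT : n * r < 2 * C ^ 2 * (occ cls left right out).card) (hr : r ≤ C * n ^ 2) :
    (n : ℝ) * (27 * triangleRemovalBound (1 / (18 * (((8 * C ^ 9 : ℕ) : ℝ) * ((C ^ 2 : ℕ) : ℝ))))) ≤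
      ((C * (4 * (8 * C ^ 9)) : ℕ) : ℝ) ^ 2 := by
  classical
  set T := occ cls left right out with hTdef
  have hT0 : 0 < T.card := by
    rcases Nat.eq_zero_or_pos T.card with h | h
    · rw [h] at hT
      omega
    · exact h
  have hX : 0 < Fintype.card X := by
    obtain ⟨τ, hτ⟩ := card_pos.mp hT0
    obtain ⟨x, -⟩ := mem_occ.1 hτ
    exact Fintype.card_pos_iff.mpr ⟨x⟩
  have l1 := labels hX left (fun x y h => hcomp x y (Or.inl h))
  have l2 := labels hX right (fun x y h => hcomp x y (Or.inr (Or.inl h)))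
  have l3 := labels hX out (fun x y h => hcomp x y (Or.inr (Or.inr h)))
  have hlw := lw T (univ.filter fun v : Fin n × Fin n => ∃ x y, left (cls x y) = some v)
    (univ.filter fun v : Fin n × Fin n => ∃ x y, right (cls x y) = some v)
    (univ.filter fun v : Fin n × Fin n => ∃ x y, out (cls x y) = some v)
    (fun τ hτ => by
      obtain ⟨x, y, z, a, b, c⟩ := mem_occ.1 hτ
      exact mem_filter.2 ⟨mem_univ _, x, y, a⟩)
    (fun τ hτ => by
      obtain ⟨x, y, z, a, b, c⟩ := mem_occ.1 hτ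
      exact mem_filter.2 ⟨mem_univ _, y, z, b⟩)
    (fun τ hτ => by
      obtain ⟨x, y, z, a, b, c⟩ := mem_occ.1 hτ
      exact mem_filter.2 ⟨mem_univ _, x, z, c⟩)
  have hlw2 : T.card ^ 2 ≤ (C * r) * (C * r) * (C * r) :=
    hlw.trans (Nat.mul_le_mul (Nat.mul_le_mul l1 l2) l3)
  have hr0 : 0 < r := by
    rcases Nat.eq_zero_or_pos r with h | h
    · rw [h, Nat.mul_zero, Nat.mul_zero] at hlw2
      have : 0 < T.card ^ 2 := by positivity
      omega
    · exact h
  have hbig : n ^ 2 ≤ 4 * C ^ 7 * r := by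
    have h1 : (n * r) ^ 2 ≤ (2 * C ^ 2 * T.card) ^ 2 := Nat.pow_le_pow_left hT.le 2
    have hr2 : 0 < r ^ 2 := by positivity
    refine Nat.le_of_mul_le_mul_right ?_ hr2
    calc n ^ 2 * r ^ 2 = (n * r) ^ 2 := by ring
      _ ≤ (2 * C ^ 2 * T.card) ^ 2 := h1
      _ = 4 * C ^ 4 * T.card ^ 2 := by ring
      _ ≤ 4 * C ^ 4 * ((C * r) * (C * r) * (C * r)) := Nat.mul_le_mul_left _ hlw2
      _ = 4 * C ^ 7 * r * r ^ 2 := by ring
  have hTbig : n ^ 3 ≤ 8 * C ^ 9 * T.card := by
    calc n ^ 3 = n * n ^ 2 := by ring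
      _ ≤ n * (4 * C ^ 7 * r) := Nat.mul_le_mul_left _ hbig
      _ = 4 * C ^ 7 * (n * r) := by ring
      _ ≤ 4 * C ^ 7 * (2 * C ^ 2 * T.card) := Nat.mul_le_mul_left _ hT.le
      _ = 8 * C ^ 9 * T.card := by ring
  refine core (L := fun x y => left (cls x y)) (R := fun x y => right (cls x y))
    (O := fun x y => out (cls x y)) (M := C * r) hn ?_ ?_ hX only ?_ ?_ T ?_ hTbig ?_
  · have : 0 < C ^ 9 := by positivity
    omega
  · have : 0 < C ^ 2 := by positivity
    omega
  · intro j y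
    exact deg_col (cls := cls) (fun a => ∃ i, left a = some (i, j)) (fun x y h => hcomp x y (by
      obtain ⟨i, e⟩ := h
      rw [e]
      exact Or.inl (by simp))) y
  · intro j y
    exact deg_row (cls := cls) (fun a => ∃ k, right a = some (j, k)) (fun x y h => hcomp x y (by
      obtain ⟨i, e⟩ := h
      rw [e]
      exact Or.inr (Or.inl (by simp)))) y
  · intro τ hτ S1 S2 S3 hS
    obtain ⟨x, y, z, a, b, c⟩ := mem_occ.1 hτ
    have q1 := (hcomp x y (Or.inl (by rw [a]; simp))).size'
    have q2 := (hcomp y z (Or.inr (Or.inl (by rw [b]; simp)))).size'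
    have q3 := (hcomp x z (Or.inr (Or.inr (by rw [c]; simp)))).size'
    have h1 := hit hcoh x y z S1 S2 S3 (fun x' y' z' k1 k2 k3 =>
      hS x' y' z' (by rw [k1, a]) (by rw [k2, b]) (by rw [k3, c])) (C * r) _ q1 q2 q3
    refine h1.trans (Nat.mul_le_mul_left _ ?_)
    refine Nat.add_le_add (Nat.add_le_add ?_ ?_) ?_ <;> refine card_le_card ?_ <;> intro p hp <;>
      obtain ⟨hp1, hp2⟩ := mem_filter.1 hp <;> refine mem_filter.2 ⟨hp1, ?_⟩
    · rw [hp2, a]
    · rw [hp2, b]
    · rw [hp2, c]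
  · calc C * r ≤ C * (C * n ^ 2) := Nat.mul_le_mul_left _ hr
      _ = C ^ 2 * n ^ 2 := by ring

/-- the main theorem -/
theorem main1 (C : ℕ) : ∃ n₀ : ℕ, ∀ n : ℕ, n₀ ≤ n → ∀ (ι : Type) [Fintype ι]
    (X K : ι → Type) [∀ m, Fintype (X m)] (cls : ∀ m, X m → X m → K m)
    (left right out : ∀ m, K m → Option (Fin n × Fin n)) (r : ι → ℕ),
    (∀ m, IsCoherent (cls m)) →
    (∀ m x y, (left m (cls m x y) ≠ none ∨ right m (cls m x y) ≠ none ∨
      out m (cls m x y) ≠ none) → Thick (cls m) C (r m) (cls m x y)) →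
    NoOthers cls left right out →
    n ^ 3 ≤ C * Nat.card {τ // Occurs cls left right out τ} → C * n ^ 2 < ∑ m, r m := by
  rcases Nat.eq_zero_or_pos C with hC0 | hC
  · subst hC0
    refine ⟨1, ?_⟩
    intro n hn ι _ X K _ cls left right out r _ _ _ h
    have : 0 < n ^ 3 := by positivity
    rw [Nat.zero_mul] at h
    omega
  set t : ℝ := 27 * triangleRemovalBound
    (1 / (18 * (((8 * C ^ 9 : ℕ) : ℝ) * ((C ^ 2 : ℕ) : ℝ)))) with ht
  have hCr : (0 : ℝ) < C := by exact_mod_cast hC
  have ht0 : 0 < t := by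
    have h1 : (0 : ℝ) < 1 / (18 * (((8 * C ^ 9 : ℕ) : ℝ) * ((C ^ 2 : ℕ) : ℝ))) := by
      push_cast
      positivity
    have h2 := triangleRemovalBound_pos h1
    rw [ht]
    linarith
  obtain ⟨n₁, hn₁⟩ := exists_nat_gt (((C * (4 * (8 * C ^ 9)) : ℕ) : ℝ) ^ 2 / t)
  refine ⟨n₁ + 1, ?_⟩
  intro n hn ι _ X K _ cls left right out r hcoh hcomp honly hmany
  classical
  have hn0 : 0 < n := by omega
  by_contra hcon
  rw [not_lt] at hcon
  -- one configuration with many triples
  obtain ⟨m, hm⟩ : ∃ m, n * r m < 2 * C ^ 2 * (occ (cls m) (left m) (right m) (out m)).card := by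
    by_contra hno
    push Not at hno
    have h1 : Nat.card {τ // Occurs cls left right out τ} ≤
        ∑ m, (occ (cls m) (left m) (right m) (out m)).card := by
      rw [natcard_eq]
      have h2 : (univ.filter fun τ => Occurs cls left right out τ) ⊆
          univ.biUnion fun m => occ (cls m) (left m) (right m) (out m) := by
        intro τ hτ
        obtain ⟨m, x, y, z, a, b, c⟩ := (mem_filter.1 hτ).2
        exact mem_biUnion.2 ⟨m, mem_univ _, mem_occ.2 ⟨x, y, z, a, b, c⟩⟩
      exact (card_le_card h2).trans card_biUnion_le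
    have h4 : 2 * C * n ^ 3 ≤ C * n ^ 3 := by
      calc 2 * C * n ^ 3 ≤ 2 * C * (C * Nat.card {τ // Occurs cls left right out τ}) :=
            Nat.mul_le_mul_left _ hmany
        _ ≤ 2 * C * (C * ∑ m, (occ (cls m) (left m) (right m) (out m)).card) :=
            Nat.mul_le_mul_left _ (Nat.mul_le_mul_left _ h1)
        _ = ∑ m, 2 * C ^ 2 * (occ (cls m) (left m) (right m) (out m)).card := by
            rw [← mul_sum]
            ring
        _ ≤ ∑ m, n * r m := sum_le_sum fun m _ => hno m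
        _ = n * ∑ m, r m := by rw [mul_sum]
        _ ≤ n * (C * n ^ 2) := Nat.mul_le_mul_left _ hcon
        _ = C * n ^ 3 := by ring
    have h5 : 0 < C * n ^ 3 := by positivity
    have h6 : 2 * C * n ^ 3 = C * n ^ 3 + C * n ^ 3 := by ring
    omega
  have hr : r m ≤ C * n ^ 2 := (single_le_sum (fun _ _ => Nat.zero_le _) (mem_univ m)).trans hcon
  have h7 := one hn0 hC (hcoh m) (hcomp m)
    (fun x y z i j j' k i' k' => honly m x y z i j j' k i' k') hm hr
  have h8 : (n₁ : ℝ) < n := by exact_mod_cast (by omega : n₁ < n)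
  rw [← ht] at h7
  have h9 : (n : ℝ) ≤ ((C * (4 * (8 * C ^ 9)) : ℕ) : ℝ) ^ 2 / t := by
    rw [le_div_iff₀ ht0]
    exact h7
  linarith

/-! ### Algorithms -/

section

variable {n : ℕ} {ι : Type} [Fintype ι] {X K : ι → Type} [∀ m, Fintype (X m)]
  {cls : ∀ m, X m → X m → K m} {left right out : ∀ m, K m → Option (Fin n × Fin n)}
  {u v w : ∀ m, K m → ℝ} {l : Fin n × Fin n × Fin n → ℝ}

theorem entry_single (i j : Fin n) (p : Option (Fin n × Fin n)) :
    entry (Matrix.single i j (1 : ℝ)) p = if p = some (i, j) then 1 else 0 := by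
  rcases p with _ | ⟨a, b⟩
  · simp [entry]
  · simp only [entry, Matrix.single_apply, Option.some.injEq, Prod.mk.injEq]
    refine if_congr ?_ rfl rfl
    exact ⟨fun h => ⟨h.1.symm, h.2.symm⟩, fun h => ⟨h.1.symm, h.2.symm⟩⟩

theorem place_nonneg {Y L : Type} {f : Y → Y → L} {q : L → ℝ} (hq : ∀ a, 0 < q a)
    (lab : L → Option (Fin n × Fin n)) (i j : Fin n) (x y : Y) :
    0 ≤ place f q lab (Matrix.single i j (1 : ℝ)) x y := by
  unfold place
  rw [Matrix.of_apply, entry_single]
  refine mul_nonneg (hq _).le ?_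
  split_ifs
  exacts [zero_le_one, le_refl 0]

theorem place_pos {Y L : Type} {f : Y → Y → L} {q : L → ℝ} (hq : ∀ a, 0 < q a)
    (lab : L → Option (Fin n × Fin n)) (i j : Fin n) {x y : Y} :
    0 < place f q lab (Matrix.single i j (1 : ℝ)) x y ↔ lab (f x y) = some (i, j) := by
  unfold place
  rw [Matrix.of_apply, entry_single]
  by_cases h : lab (f x y) = some (i, j)
  · rw [if_pos h, mul_one]
    exact ⟨fun _ => h, fun _ => hq _⟩
  · rw [if_neg h, mul_zero]
    exact ⟨fun h' => absurd h' (lt_irrefl _), fun h' => absurd h' h⟩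

theorem Computes.noOthers (hc : Computes cls left right out u v w l)
    (hpos : ∀ m a, 0 < u m a ∧ 0 < v m a ∧ 0 < w m a) : NoOthers cls left right out := by
  classical
  intro m x y z i j j' k i' k' h1 h2 h3
  have h := hc (Matrix.single i j 1) (Matrix.single j' k 1) i' k'
  have hterm : ∀ (m : ι) (x z : X m), 0 ≤ (if out m (cls m x z) = some (i', k') then
      w m (cls m x z) * (place (cls m) (u m) (left m) (Matrix.single i j (1 : ℝ)) *
        place (cls m) (v m) (right m) (Matrix.single j' k (1 : ℝ))) x z else 0) := by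
    intro m x z
    split_ifs
    · refine mul_nonneg (hpos _ _).2.2.le ?_
      rw [Matrix.mul_apply]
      exact sum_nonneg fun y _ => mul_nonneg (place_nonneg (fun a => (hpos m a).1) _ _ _ _ _)
        (place_nonneg (fun a => (hpos m a).2.1) _ _ _ _ _)
    · exact le_refl 0
  have hsum : 0 < ∑ m, ∑ x : X m, ∑ z : X m, (if out m (cls m x z) = some (i', k') then
      w m (cls m x z) * (place (cls m) (u m) (left m) (Matrix.single i j (1 : ℝ)) *
        place (cls m) (v m) (right m) (Matrix.single j' k (1 : ℝ))) x z else 0) := by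
    refine sum_pos' (fun m _ => sum_nonneg fun x _ => sum_nonneg fun z _ => hterm m x z)
      ⟨m, mem_univ _, ?_⟩
    refine sum_pos' (fun x _ => sum_nonneg fun z _ => hterm m x z) ⟨x, mem_univ _, ?_⟩
    refine sum_pos' (fun z _ => hterm m x z) ⟨z, mem_univ _, ?_⟩
    rw [if_pos h3]
    refine mul_pos (hpos _ _).2.2 ?_
    rw [Matrix.mul_apply]
    refine sum_pos' (fun y _ => mul_nonneg (place_nonneg (fun a => (hpos m a).1) _ _ _ _ _)
        (place_nonneg (fun a => (hpos m a).2.1) _ _ _ _ _)) ⟨y, mem_univ _, ?_⟩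
    exact mul_pos ((place_pos (fun a => (hpos m a).1) _ _ _).2 h1)
      ((place_pos (fun a => (hpos m a).2.1) _ _ _).2 h2)
  rw [h] at hsum
  obtain ⟨j'', -, hj⟩ := exists_ne_zero_of_sum_ne_zero hsum.ne'
  have hj2 := right_ne_zero_of_mul hj
  have a1 := left_ne_zero_of_mul hj2
  have a2 := right_ne_zero_of_mul hj2
  rw [Matrix.single_apply] at a1 a2
  have b1 := ite_ne_right_iff.mp a1
  have b2 := ite_ne_right_iff.mp a2
  exact ⟨b1.1.1, b1.1.2.trans b2.1.1.symm, b2.1.2⟩

theorem Computes.occurs (hc : Computes cls left right out u v w l) 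
    (τ : Fin n × Fin n × Fin n) (hτ : l τ ≠ 0) : Occurs cls left right out τ := by
  classical
  obtain ⟨i, j, k⟩ := τ
  have h := hc (Matrix.single i j 1) (Matrix.single j k 1) i k
  have h0 : ∑ j', l (i, j', k) * (Matrix.single i j (1 : ℝ) i j' * Matrix.single j k (1 : ℝ) j' k) =
      l (i, j, k) := by
    rw [sum_eq_single j]
    · simp
    · intro j' _ hne
      rw [Matrix.single_apply, if_neg (fun h => hne h.2.symm), zero_mul, mul_zero]
    · intro h'
      exact absurd (mem_univ _) h'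
  rw [h0] at h
  rw [← h] at hτ
  obtain ⟨m, -, h1⟩ := exists_ne_zero_of_sum_ne_zero hτ
  obtain ⟨x, -, h2⟩ := exists_ne_zero_of_sum_ne_zero h1
  obtain ⟨z, -, h3⟩ := exists_ne_zero_of_sum_ne_zero h2
  obtain ⟨h4, h5⟩ := ite_ne_right_iff.mp h3
  have h6 := right_ne_zero_of_mul h5
  rw [Matrix.mul_apply] at h6
  obtain ⟨y, -, h7⟩ := exists_ne_zero_of_sum_ne_zero h6
  have h8 := left_ne_zero_of_mul h7
  have h9 := right_ne_zero_of_mul h7
  unfold place at h8 h9
  rw [Matrix.of_apply, entry_single] at h8 h9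
  have g1 := ite_ne_right_iff.mp (right_ne_zero_of_mul h8)
  have g2 := ite_ne_right_iff.mp (right_ne_zero_of_mul h9)
  exact ⟨m, x, y, z, g1.1, g2.1, h4⟩

end

/-- both forms of the theorem -/
theorem main2 (C : ℕ) : ∃ n₀ : ℕ, ∀ n : ℕ, n₀ ≤ n → ∀ (ι : Type) [Fintype ι]
    (X K : ι → Type) [∀ m, Fintype (X m)] (cls : ∀ m, X m → X m → K m)
    (left right out : ∀ m, K m → Option (Fin n × Fin n)) (r : ι → ℕ),
    (∀ m, IsCoherent (cls m)) →
    (∀ m x y, (left m (cls m x y) ≠ none ∨ right m (cls m x y) ≠ none ∨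
      out m (cls m x y) ≠ none) → Thick (cls m) C (r m) (cls m x y)) →
    (NoOthers cls left right out →
      n ^ 3 ≤ C * Nat.card {τ // Occurs cls left right out τ} → C * n ^ 2 < ∑ m, r m) ∧
    (∀ (u v w : ∀ m, K m → ℝ) (l : Fin n × Fin n × Fin n → ℝ),
      (∀ m a, 0 < u m a ∧ 0 < v m a ∧ 0 < w m a) → Computes cls left right out u v w l →
      n ^ 3 ≤ C * Nat.card {τ // l τ ≠ 0} → C * n ^ 2 < ∑ m, r m) := by
  classical
  obtain ⟨n₀, h⟩ := main1 C
  refine ⟨n₀, fun n hn ι _ X K _ cls left right out r hcoh hcomp => ⟨h n hn ι X K cls left right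
    out r hcoh hcomp, fun u v w l hpos hc hl => ?_⟩⟩
  refine h n hn ι X K cls left right out r hcoh hcomp (hc.noOthers hpos) (hl.trans ?_)
  refine Nat.mul_le_mul_left _ ?_
  rw [natcard_eq, natcard_eq]
  refine card_le_card fun τ hτ => ?_
  exact mem_filter.2 ⟨mem_univ _, hc.occurs τ (mem_filter.1 hτ).2⟩

end Pool.Agent.Zk73.CC
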